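import Mathlib

/-!
The second of the three conjectured congruences for
`S_p = ∑_{k<p} binom(-1/2,k) binom(-1/3,k) / (-4)^k` fails at the primes `7, 13, 19, 31, 43`;
there it holds with the opposite sign.
-/

set_option autoImplicit false

namespace Pool.Agent.Results.MP_7d0087_nt.CaseTwoFails

/-- `u ≡ v (mod p^m)` in the ring of rationals whose denominator is prime to `p`:
`u - v = p^m r` with the denominator of `r` not divisible by `p` -/
def CongMod (p m : ℕ) (u v : ℚ) : Prop := ∃ r : ℚ, ¬ p ∣ r.den ∧ u - v = (p : ℚ) ^ m * r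

/-- `binom(a,k) = a (a-1) ⋯ (a-k+1) / k!` -/
def bc (a : ℚ) (k : ℕ) : ℚ := (∏ j ∈ Finset.range k, (a - j)) / k.factorial

/-- `S_p = ∑_{k<p} binom(-1/2,k) binom(-1/3,k) / (-4)^k` -/
def S (p : ℕ) : ℚ := ∑ k ∈ Finset.range p, bc (-1 / 2) k * bc (-1 / 3) k / (-4) ^ k

/-- The Legendre symbol `(p/5)`: `0` if `5 ∣ p`, `1` if `p ≡ ±1 (mod 5)`, `-1` otherwise. -/
def leg5 (p : ℕ) : ℚ := if p % 5 = 0 then 0 else if p % 5 = 1 ∨ p % 5 = 4 then 1 else -1

/-- The right-hand side `(p/5) (A + 3B - p/(A + 3B))` of the second congruence. -/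
def R (p : ℕ) (A B : ℤ) : ℚ := leg5 p * ((A + 3 * B : ℤ) - p / ((A + 3 * B : ℤ) : ℚ))

/-- The hypotheses of the second congruence: `p = A² + 3B²`, `A ≡ 1 (mod 3)`, `5 ∤ AB` and
`A/B ≡ -1` or `-2 (mod 5)`, that is `A ≡ -B` or `A ≡ -2B (mod 5)`. -/
def Hyp (p : ℕ) (A B : ℤ) : Prop :=
  (p : ℤ) = A ^ 2 + 3 * B ^ 2 ∧ A % 3 = 1 ∧ (A * B) % 5 ≠ 0 ∧
    ((A + B) % 5 = 0 ∨ (A + 2 * B) % 5 = 0)

instance (p : ℕ) (A B : ℤ) : Decidable (Hyp p A B) := by unfold Hyp; infer_instance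

theorem not_congMod {p m : ℕ} (hp : p ≠ 0) {u v : ℚ} (h : p ∣ ((u - v) / (p : ℚ) ^ m).den) :
    ¬ CongMod p m u v := by
  rintro ⟨r, hr, h1⟩
  apply hr
  have h2 : (u - v) / (p : ℚ) ^ m = r := by
    rw [h1]
    have : (p : ℚ) ^ m ≠ 0 := pow_ne_zero _ (by exact_mod_cast hp)
    field_simp
  rw [← h2]
  exact h

theorem congMod_of {p m : ℕ} (hp : p ≠ 0) {u v : ℚ} (h : ¬ p ∣ ((u - v) / (p : ℚ) ^ m).den) :
    CongMod p m u v := by
  refine ⟨(u - v) / (p : ℚ) ^ m, h, ?_⟩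
  have : (p : ℚ) ^ m ≠ 0 := pow_ne_zero _ (by exact_mod_cast hp)
  field_simp

theorem key (p : ℕ) (hp : p ≠ 0) (hp' : p ≤ 43)
    (h : ∀ i ∈ Finset.range 13, ∀ j ∈ Finset.range 7,
      Hyp p ((i : ℤ) - 6) ((j : ℤ) - 3) →
      p ∣ ((S p - R p ((i : ℤ) - 6) ((j : ℤ) - 3)) / (p : ℚ) ^ 2).den ∧
      ¬ p ∣ ((S p - -R p ((i : ℤ) - 6) ((j : ℤ) - 3)) / (p : ℚ) ^ 2).den)
    (A B : ℤ) (hAB : Hyp p A B) :
    ¬ CongMod p 2 (S p) (R p A B) ∧ CongMod p 2 (S p) (-R p A B) := by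
  have h0 := hAB.1
  have hp'' : (p : ℤ) ≤ 43 := by exact_mod_cast hp'
  have a1 : -6 ≤ A := by nlinarith [sq_nonneg A, sq_nonneg B]
  have a2 : A ≤ 6 := by nlinarith [sq_nonneg A, sq_nonneg B]
  have b1 : -3 ≤ B := by nlinarith [sq_nonneg A, sq_nonneg B]
  have b2 : B ≤ 3 := by nlinarith [sq_nonneg A, sq_nonneg B]
  have hA : (((A + 6).toNat : ℕ) : ℤ) - 6 = A := by omega
  have hB : (((B + 3).toNat : ℕ) : ℤ) - 3 = B := by omega
  have := h (A + 6).toNat (by rw [Finset.mem_range]; omega) (B + 3).toNat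
    (by rw [Finset.mem_range]; omega) (by rw [hA, hB]; exact hAB)
  rw [hA, hB] at this
  exact ⟨not_congMod hp this.1, congMod_of hp this.2⟩

/-- For `p ∈ {7, 13, 19, 31, 43}` (primes `≡ 1 (mod 3)` to which the second of the three
conjectured congruences applies) the second congruence fails modulo `p²` for every admissible
pair `A, B`, and such a pair exists; the congruence holds with the opposite sign. -/
theorem result : ∀ p ∈ ({7, 13, 19, 31, 43} : Finset ℕ), p.Prime ∧ p % 3 = 1 ∧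
    (∃ A B : ℤ, Hyp p A B) ∧
    ∀ A B : ℤ, Hyp p A B → ¬ CongMod p 2 (S p) (R p A B) ∧ CongMod p 2 (S p) (-R p A B) := by
  intro p hp
  simp only [Finset.mem_insert, Finset.mem_singleton] at hp
  rcases hp with rfl | rfl | rfl | rfl | rfl
  · exact ⟨by norm_num, by norm_num, ⟨-2, 1, by decide⟩,
      key 7 (by norm_num) (by norm_num) (by decide +kernel)⟩
  · exact ⟨by norm_num, by norm_num, ⟨1, 2, by decide⟩,
      key 13 (by norm_num) (by norm_num) (by decide +kernel)⟩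
  · exact ⟨by norm_num, by norm_num, ⟨4, 1, by decide⟩,
      key 19 (by norm_num) (by norm_num) (by decide +kernel)⟩
  · exact ⟨by norm_num, by norm_num, ⟨-2, -3, by decide⟩,
      key 31 (by norm_num) (by norm_num) (by decide +kernel)⟩
  · exact ⟨by norm_num, by norm_num, ⟨4, 3, by decide⟩,
      key 43 (by norm_num) (by norm_num) (by decide +kernel)⟩

end Pool.Agent.Results.MP_7d0087_nt.CaseTwoFails
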